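import Pool.Agent.Q25.Ext10374

/-!
# For `n = 10374 = 2 * 3 * 7 * 13 * 19` neither `P_odd(n)` nor `P_even(n)` has the largest height

`H(P_odd) = H(P_even) = 8415683487216`, but `(x - 1) P_odd(x)`, which divides `x^n - 1`, has height at least
`9401697462912`.
-/

namespace Pool.Agent.Results.MP_7b9a49_nt.NotExtremal

open Polynomial Pool.Agent.Q25.PolyList Pool.Agent.Q25.Ext10374

/-- the height of an integer polynomial: the largest absolute value of a coefficient -/
noncomputable def height (f : ℤ[X]) : ℕ := f.support.sup (fun i => (f.coeff i).natAbs)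

/-- the product of the cyclotomic polynomials `Φ_d`, `d ∣ n`, for which `d` has an odd number of prime divisors -/
noncomputable def Podd (n : ℕ) : ℤ[X] :=
  ∏ d ∈ n.divisors.filter (fun d => Odd d.primeFactors.card), cyclotomic d ℤ

/-- the product of the cyclotomic polynomials `Φ_d`, `d ∣ n`, for which `d` has an even number of prime divisors -/
noncomputable def Peven (n : ℕ) : ℤ[X] :=
  ∏ d ∈ n.divisors.filter (fun d => Even d.primeFactors.card), cyclotomic d ℤ

lemma height_le (f : ℤ[X]) (M : ℕ) (h : ∀ i, (f.coeff i).natAbs ≤ M) : height f ≤ M :=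
  Finset.sup_le (fun i _ => h i)

lemma le_height (f : ℤ[X]) (i : ℕ) : (f.coeff i).natAbs ≤ height f := by
  by_cases hi : i ∈ f.support
  · exact Finset.le_sup (f := fun i => (f.coeff i).natAbs) hi
  · rw [notMem_support_iff.mp hi]; exact Nat.zero_le _

lemma height_odd : height (Podd 10374) ≤ M := by
  refine height_le _ _ (fun i => ?_)
  unfold Podd
  rw [prod_odd, Qo_eq, coeff_toPoly]
  exact Pool.Agent.Q25.Kron.allLe_getD M _ t4.1 i

lemma height_even : height (Peven 10374) ≤ M := by
  refine height_le _ _ (fun i => ?_)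
  unfold Peven
  rw [prod_even, Qe_eq, coeff_toPoly]
  exact Pool.Agent.Q25.Kron.allLe_getD M _ t5 i

lemma coeff_sub_one_mul (P : ℤ[X]) (n : ℕ) : ((X - 1) * P).coeff (n + 1) = P.coeff n - P.coeff (n + 1) := by
  rw [sub_mul, one_mul, coeff_sub, coeff_X_mul]

lemma height_f : 9401697462912 ≤ height ((X - 1) * Podd 10374) := by
  have h1 := le_height ((X - 1) * Podd 10374) (2589 + 1)
  have h2 : Podd 10374 = toPoly lo := by
    unfold Podd
    rw [prod_odd, Qo_eq]
  rw [coeff_sub_one_mul, h2, coeff_toPoly, coeff_toPoly] at h1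
  have h3 : (lo.getD 2589 0 - lo.getD (2589 + 1) 0).natAbs = 9401697462912 := by
    have := t4.2
    have e : (2589 + 1 : ℕ) = 2590 := by norm_num
    rw [e, this]
    norm_num
  rw [h3, ← h2] at h1
  exact h1

lemma dvd_f (n : ℕ) (hn : 0 < n) : (X - 1) * Podd n ∣ X ^ n - 1 := by
  classical
  rw [← prod_cyclotomic_eq_X_pow_sub_one hn ℤ]
  unfold Podd
  have h1 : (1 : ℕ) ∉ n.divisors.filter (fun d => Odd d.primeFactors.card) := by simp
  rw [← cyclotomic_one ℤ, ← Finset.prod_insert (f := fun d => cyclotomic d ℤ) h1]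
  apply Finset.prod_dvd_prod_of_subset
  intro d hd
  rcases Finset.mem_insert.mp hd with rfl | hd
  · exact Nat.one_mem_divisors.mpr hn.ne'
  · exact (Finset.mem_filter.mp hd).1

lemma sqf : Squarefree (2 * 3 * 7 * 13 * 19) := by
  have h : ∀ a b : ℕ, a.Coprime b → Squarefree a → Squarefree b → Squarefree (a * b) :=
    fun a b h h1 h2 => (Nat.squarefree_mul h).mpr ⟨h1, h2⟩
  refine h _ _ (by norm_num) (h _ _ (by norm_num) (h _ _ (by norm_num) (h _ _ (by norm_num) ?_ ?_) ?_) ?_) ?_ <;>
    exact Nat.Prime.prime (by norm_num) |>.squarefree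

/-- For the squarefree number `n = 2 * 3 * 7 * 13 * 19 = 10374` the divisor `f = (x - 1) P_odd(n)` of `x^n - 1` has
larger height than `P_odd(n)` and than `P_even(n)`. -/
theorem result : ∃ n : ℕ, n = 2 * 3 * 7 * 13 * 19 ∧ Squarefree n ∧ ∃ f : ℤ[X], f = (X - 1) * Podd n ∧ f ∣ X ^ n - 1 ∧
    height (Podd n) < height f ∧ height (Peven n) < height f := by
  refine ⟨10374, by norm_num, ?_, (X - 1) * Podd 10374, rfl, dvd_f _ (by norm_num), ?_, ?_⟩
  · have := sqf
    norm_num at this
    exact this
  · exact lt_of_le_of_lt height_odd (lt_of_lt_of_le (by unfold M; norm_num) height_f)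
  · exact lt_of_le_of_lt height_even (lt_of_lt_of_le (by unfold M; norm_num) height_f)

end Pool.Agent.Results.MP_7b9a49_nt.NotExtremal
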